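import Mathlib
import Pool.Agent.H.MP_fed0c4_co.C

set_option autoImplicit false

open Pool.Agent.H.MP_fed0c4_co

theorem Pool.Agent.Results.MP_fed0c4_co.Main.result :
    ∃ d : ℕ, 1 ≤ d ∧ ∀ C : ℕ, ∃ r₀ : ℕ, ∀ r ≥ r₀,
      ∃ (n : ℕ) (G : SimpleGraph (Fin n)) (o : Fin n), G.Connected ∧
        (G.neighborSet o).ncard = d ∧ (∀ v, SameBall G v G o r) ∧
        ∀ (W : Type) (H : SimpleGraph W), H.Connected → (∀ v, SameBall H v G o r) →
          ((C * r : ℕ) : ℕ∞) < H.ediam := by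
  refine ⟨15, by norm_num, fun C => ?_⟩
  obtain ⟨r0, h⟩ := main C
  refine ⟨r0, fun r hr => ?_⟩
  obtain ⟨n, G, o, a, b, c, d⟩ := fin r
  refine ⟨n, G, o, a, c o, fun v => ?_, fun W H h1 h2 => h r hr W H h1 fun v => (h2 v).trans d⟩
  obtain ⟨φ, hφ⟩ := b v o
  exact hφ ▸ sb_iso a φ v r
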